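import Pool.Agent.K3h53.UG.Stm6
import Pool.Agent.K3h72.UG.Top6

/-! UG project (brick TOP7): weighted leading forms on weighted neighbourhoods (adapted from
`Pool.Agent.K3h72.UG.Top6`). -/

set_option autoImplicit false

namespace Pool.Agent.K3h90.UG

open MvPolynomial Filter Topology Metric Set Pool.Agent.K3h53.UG Pool.Agent.K3h72.UG

/-- **Brick TOP7.** -/
theorem t_TOP7 : S_TOP7 := by
  classical
  intro s v hv h lam hlam
  obtain ⟨L, hL⟩ : ∃ L : ℝ, L = ‖eval lam (wtop v h)‖ := ⟨_, rfl⟩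
  have hLpos : 0 < L := by rw [hL]; exact norm_pos_iff.2 hlam
  obtain ⟨D, hD⟩ : ∃ D : ℕ, D = weightedTotalDegree v h := ⟨_, rfl⟩
  -- continuity
  have hcont : Continuous fun u : Fin s → ℂ => ‖eval u (wtop v h)‖ :=
    (MvPolynomial.continuous_eval _).norm
  have hev : ∀ᶠ u in 𝓝 lam, L / 2 < ‖eval u (wtop v h)‖ :=
    hcont.continuousAt.eventually (lt_mem_nhds (by change L / 2 < ‖eval lam (wtop v h)‖; rw [← hL]; linarith))
  obtain ⟨ε₁, hε₁, hball⟩ := Metric.eventually_nhds_iff_ball.1 hev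
  obtain ⟨B, hB⟩ : ∃ B : ℝ, B = ‖lam‖ + 1 := ⟨_, rfl⟩
  obtain ⟨A, hA⟩ : ∃ A : ℝ, A = ∑ m ∈ h.support, ‖coeff m h‖ * ∏ j, B ^ m j := ⟨_, rfl⟩
  have hB0 : 0 ≤ B := by rw [hB]; positivity
  have hA0 : 0 ≤ A := by
    rw [hA]
    exact Finset.sum_nonneg fun m _ =>
      mul_nonneg (norm_nonneg _) (Finset.prod_nonneg fun j _ => pow_nonneg hB0 _)
  have hε₀ : 0 < min ε₁ 1 := lt_min hε₁ one_pos
  refine ⟨min ε₁ 1 / 2, L / 4, max 1 (4 * A / L), half_pos hε₀, by linarith, le_max_left _ _,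
    fun R hR l hl => ?_⟩
  have hR1 : 1 ≤ R := (le_max_left _ _).trans hR
  have hR0 : 0 < R := by linarith
  have hRA : A ≤ R * L / 4 := by
    have := (le_max_right _ _).trans hR
    rw [div_le_iff₀ hLpos] at this
    linarith
  obtain ⟨u, hu⟩ : ∃ u : Fin s → ℂ, u = fun j => l j / (R : ℂ) ^ v j := ⟨_, rfl⟩
  have hRc : (R : ℂ) ≠ 0 := by exact_mod_cast hR0.ne'
  have hlu : ∀ j, l j = (R : ℂ) ^ v j * u j := by
    intro j
    rw [hu]
    field_simp
  have hdist : ∀ j, ‖u j - lam j‖ < min ε₁ 1 := by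
    intro j
    have h1 := hl j
    rw [hlu j] at h1
    have h2 : (R : ℂ) ^ v j * u j - ((R ^ v j : ℝ) : ℂ) * lam j =
        (R : ℂ) ^ v j * (u j - lam j) := by
      push_cast
      ring
    rw [h2, norm_mul, norm_pow, Complex.norm_real, Real.norm_of_nonneg hR0.le] at h1
    have h3 : 0 < R ^ v j := pow_pos hR0 _
    have h4 : ‖u j - lam j‖ ≤ min ε₁ 1 / 2 := by
      refine le_of_mul_le_mul_left ?_ h3
      linarith
    linarith
  have hub : u ∈ ball lam ε₁ := by
    rw [mem_ball, dist_pi_lt_iff hε₁]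
    intro j
    rw [dist_eq_norm]
    exact (hdist j).trans_le (min_le_left _ _)
  have huB : ∀ j, ‖u j‖ ≤ B := by
    intro j
    have h1 : ‖u j‖ ≤ ‖lam j‖ + ‖u j - lam j‖ := by
      have := norm_add_le (lam j) (u j - lam j)
      rwa [add_sub_cancel] at this
    have h2 := norm_le_pi_norm lam j
    have h3 := (hdist j).le.trans (min_le_right _ _)
    linarith
  have hgt := hball u hub
  -- the splitting
  have hsplit : eval l h = (R : ℂ) ^ D * eval u (wtop v h) +
      ∑ m ∈ h.support.filter (fun m => ¬ Finsupp.weight v m = D),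
        (R : ℂ) ^ Finsupp.weight v m * tm h u m := by
    rw [eval_scale v h R u l hlu, eval_wtop,
      ← Finset.sum_filter_add_sum_filter_not h.support (fun m => Finsupp.weight v m = D),
      Finset.mul_sum, ← hD]
    congr 1
    refine Finset.sum_congr rfl fun m hm => ?_
    rw [(Finset.mem_filter.1 hm).2]
  obtain ⟨E, hE⟩ : ∃ E : ℂ, E = ∑ m ∈ h.support.filter (fun m => ¬ Finsupp.weight v m = D),
        (R : ℂ) ^ Finsupp.weight v m * tm h u m := ⟨_, rfl⟩
  rw [← hE] at hsplit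
  have hRD : 0 < R ^ D := pow_pos hR0 D
  have hEle : R * ‖E‖ ≤ R ^ D * A := by
    have h1 : R * ‖E‖ ≤ ∑ m ∈ h.support.filter (fun m => ¬ Finsupp.weight v m = D),
        R ^ D * (‖coeff m h‖ * ∏ j, B ^ m j) := by
      rw [hE]
      refine (mul_le_mul_of_nonneg_left (norm_sum_le _ _) hR0.le).trans ?_
      rw [Finset.mul_sum]
      refine Finset.sum_le_sum fun m hm => ?_
      rw [Finset.mem_filter] at hm
      rw [norm_mul, norm_pow, Complex.norm_real, Real.norm_of_nonneg hR0.le, ← mul_assoc]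
      have h2 : Finsupp.weight v m + 1 ≤ D := by
        have h3 : Finsupp.weight v m ≤ D := by
          rw [hD]
          exact le_weightedTotalDegree v hm.1
        omega
      have h4 : R * R ^ Finsupp.weight v m ≤ R ^ D := by
        rw [← pow_succ']
        exact pow_le_pow_right₀ hR1 h2
      exact mul_le_mul h4 (tm_le h u B huB m) (norm_nonneg _) hRD.le
    refine h1.trans ?_
    rw [← Finset.mul_sum]
    refine mul_le_mul_of_nonneg_left ?_ hRD.le
    rw [hA]
    refine Finset.sum_le_sum_of_subset_of_nonneg (Finset.filter_subset _ _) fun m _ _ => ?_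
    exact mul_nonneg (norm_nonneg _) (Finset.prod_nonneg fun j _ => pow_nonneg hB0 _)
  have hmain : R * (R ^ D * (L / 2)) ≤ R * ‖eval l h‖ + R * ‖E‖ := by
    rw [← mul_add]
    refine mul_le_mul_of_nonneg_left ?_ hR0.le
    have h1 : (R : ℂ) ^ D * eval u (wtop v h) = eval l h - E := by rw [hsplit]; ring
    have h2 : R ^ D * ‖eval u (wtop v h)‖ ≤ ‖eval l h‖ + ‖E‖ := by
      have h3 := norm_sub_le (eval l h) E
      rwa [← h1, norm_mul, norm_pow, Complex.norm_real, Real.norm_of_nonneg hR0.le] at h3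
    refine le_trans ?_ h2
    exact mul_le_mul_of_nonneg_left hgt.le hRD.le
  have hfin : R * (L / 4) ≤ R * ‖eval l h‖ := by
    have h1 : R ^ D * A ≤ R ^ D * (R * L / 4) := mul_le_mul_of_nonneg_left hRA hRD.le
    have h2 : (1 : ℝ) ≤ R ^ D := one_le_pow₀ hR1
    have h3 : 0 ≤ (R ^ D - 1) * (R * L / 4) :=
      mul_nonneg (by linarith) (by positivity)
    nlinarith
  exact le_of_mul_le_mul_left hfin hR0

end Pool.Agent.K3h90.UG
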